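import Mathlib

set_option autoImplicit false
set_option linter.unusedSectionVars false

/-!
# Random matchings: few values are exponentially unlikely

`g b` is injective for every `b`.  For a random permutation `σ` and a set `J` of `m` indices the
probability that `g (σ a) a`, `a ∈ J`, takes at most `M` values is at most `(2 M)^m (m / M)^M / m!`.
-/

open Finset

namespace Pool.Agent.Q184.PM

variable {ι : Type} [Fintype ι] [DecidableEq ι]

/-- The permutations with the values `ρ` on `S`. -/
def F (S : Finset ι) (ρ : ι → ι) : Finset (Equiv.Perm ι) :=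
  univ.filter fun σ => ∀ x ∈ S, σ x = ρ x

theorem split {S : Finset ι} {ρ : ι → ι} {a : ι} (ha : a ∉ S) (f : Equiv.Perm ι → ℝ) :
    ∑ σ ∈ F S ρ, f σ = ∑ b ∈ (S.image ρ)ᶜ, ∑ σ ∈ F (insert a S) (Function.update ρ a b), f σ := by
  have h1 : ∀ σ ∈ F S ρ, σ a ∈ (S.image ρ)ᶜ := by
    intro σ hσ
    rw [mem_compl, mem_image]
    rintro ⟨x, hx, h⟩
    have h2 := (mem_filter.1 hσ).2 x hx
    have h3 : x = a := σ.injective (h2.trans h)
    exact ha (h3 ▸ hx)
  rw [← sum_fiberwise_of_maps_to h1]
  refine sum_congr rfl fun b _ => sum_congr ?_ fun _ _ => rfl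
  ext σ
  simp only [F, mem_filter, mem_univ, true_and, mem_insert, forall_eq_or_imp]
  constructor
  · rintro ⟨h2, h3⟩
    refine ⟨by rw [Function.update_self]; exact h3, fun x hx => ?_⟩
    rw [Function.update_of_ne (by rintro rfl; exact ha hx)]
    exact h2 x hx
  · rintro ⟨h2, h3⟩
    rw [Function.update_self] at h2
    refine ⟨fun x hx => ?_, h2⟩
    have := h3 x hx
    rwa [Function.update_of_ne (by rintro rfl; exact ha hx)] at this

theorem inj_update {S : Finset ι} {ρ : ι → ι} {a b : ι} (ha : a ∉ S) (hb : b ∉ S.image ρ)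
    (hρ : Set.InjOn ρ S) : Set.InjOn (Function.update ρ a b) (insert a S : Finset ι) := by
  intro x hx y hy h
  rw [mem_coe, mem_insert] at hx hy
  have key : ∀ z ∈ S, Function.update ρ a b z = ρ z := fun z hz =>
    Function.update_of_ne (by rintro rfl; exact ha hz) _ _
  rcases hx with rfl | hx <;> rcases hy with rfl | hy
  · rfl
  · rw [Function.update_self, key y hy] at h
    exact absurd (mem_image.2 ⟨y, hy, h.symm⟩) hb
  · rw [Function.update_self, key x hx] at h
    exact absurd (mem_image.2 ⟨x, hx, h⟩) hb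
  · rw [key x hx, key y hy] at h
    exact hρ hx hy h

theorem card_compl_image {S : Finset ι} {ρ : ι → ι} (hρ : Set.InjOn ρ S) :
    (S.image ρ)ᶜ.card = Fintype.card ι - S.card := by
  rw [card_compl, card_image_of_injOn hρ]

theorem card_F : ∀ (k : ℕ) (S : Finset ι) (ρ : ι → ι), Set.InjOn ρ S →
    Fintype.card ι - S.card = k → (((F S ρ).card : ℕ) : ℝ) ≤ (k.factorial : ℝ) := by
  intro k
  induction k with
  | zero =>
    intro S ρ hρ hk
    have hS : S = univ := by
      rw [← card_eq_iff_eq_univ]
      exact le_antisymm (card_le_univ S) (by omega)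
    have : (F S ρ).card ≤ 1 := by
      rw [card_le_one]
      intro σ hσ τ hτ
      ext x
      have h1 := (mem_filter.1 hσ).2 x (by rw [hS]; exact mem_univ _)
      have h2 := (mem_filter.1 hτ).2 x (by rw [hS]; exact mem_univ _)
      rw [h1, h2]
    rw [Nat.factorial_zero]
    exact_mod_cast this
  | succ k ih =>
    intro S ρ hρ hk
    obtain ⟨a, ha⟩ : ∃ a, a ∉ S := by
      by_contra hcon
      push Not at hcon
      have : S = univ := eq_univ_iff_forall.2 hcon
      rw [this, card_univ] at hk
      omega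
    have h1 : (((F S ρ).card : ℕ) : ℝ) = ∑ σ ∈ F S ρ, (1 : ℝ) := by simp
    rw [h1, split ha]
    calc ∑ b ∈ (S.image ρ)ᶜ, ∑ σ ∈ F (insert a S) (Function.update ρ a b), (1 : ℝ)
        ≤ ∑ b ∈ (S.image ρ)ᶜ, (k.factorial : ℝ) := by
          refine sum_le_sum fun b hb => ?_
          rw [mem_compl] at hb
          have := ih (insert a S) (Function.update ρ a b) (inj_update ha hb hρ)
            (by rw [card_insert_of_notMem ha]; omega)
          simpa using this
      _ = ((k + 1).factorial : ℝ) := by
          rw [sum_const, card_compl_image hρ, hk, nsmul_eq_mul, Nat.factorial_succ]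
          push_cast
          ring

section

variable {V : Type} [DecidableEq V]

/-- the weight -/
noncomputable def wt (θ : ℝ) (M : ℕ) (U : Finset V) : ℝ := if U.card ≤ M then θ ^ U.card else 0

theorem wt_nonneg {θ : ℝ} (hθ : 0 ≤ θ) (M : ℕ) (U : Finset V) : 0 ≤ wt θ M U := by
  unfold wt
  split_ifs
  · positivity
  · exact le_rfl

theorem wt_insert {θ : ℝ} (hθ : 0 ≤ θ) (M : ℕ) (U : Finset V) (x : V) :
    wt θ M (insert x U) ≤ ((if x ∈ U then 1 else 0) + θ) * wt θ M U := by
  by_cases hx : x ∈ U
  · rw [insert_eq_of_mem hx, if_pos hx]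
    have := wt_nonneg hθ M U
    nlinarith
  · rw [if_neg hx, zero_add]
    unfold wt
    rw [card_insert_of_notMem hx]
    by_cases h1 : U.card + 1 ≤ M
    · rw [if_pos h1, if_pos (by omega), pow_succ, mul_comm]
    · rw [if_neg h1]
      split_ifs
      · positivity
      · simp

theorem main (g : ι → ι → V) (hg : ∀ b, Function.Injective (g b)) {θ : ℝ} (hθ : 0 ≤ θ) (M : ℕ)
    (m₀ : ℕ) (hm₀ : θ * m₀ ≤ M) : ∀ (m : ℕ) (J S : Finset ι) (ρ : ι → ι) (U : Finset V),
      m ≤ m₀ → J.card = m → Disjoint J S → Set.InjOn ρ S →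
      (m.factorial : ℝ) * ∑ σ ∈ F S ρ, wt θ M (U ∪ J.image fun a => g (σ a) a) ≤
        ((Fintype.card ι - S.card).factorial : ℝ) * (2 * M) ^ m * wt θ M U := by
  intro m
  induction m with
  | zero =>
    intro J S ρ U _ hJ _ hρ
    rw [card_eq_zero] at hJ
    subst hJ
    simp only [image_empty, union_empty, sum_const, nsmul_eq_mul, Nat.factorial_zero, Nat.cast_one,
      one_mul, pow_zero, mul_one]
    exact mul_le_mul_of_nonneg_right (card_F _ S ρ hρ rfl) (wt_nonneg hθ M U)
  | succ m ih =>
    intro J S ρ U hm hJ hd hρ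
    have hn : Fintype.card ι - S.card = (Fintype.card ι - S.card - 1) + 1 := by
      have h1 : (J ∪ S).card ≤ Fintype.card ι := card_le_univ _
      rw [card_union_of_disjoint hd] at h1
      omega
    set k := Fintype.card ι - S.card - 1 with hk
    set Φ : Equiv.Perm ι → ℝ := fun σ => wt θ M (U ∪ J.image fun a => g (σ a) a) with hΦ
    have h1 : ∀ a ∈ J, (m.factorial : ℝ) * ∑ σ ∈ F S ρ, Φ σ ≤
        ∑ b ∈ (S.image ρ)ᶜ, (k.factorial : ℝ) * (2 * M) ^ m * wt θ M (insert (g b a) U) := by
      intro a ha
      have haS : a ∉ S := fun h => (disjoint_left.1 hd) ha h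
      rw [split haS, mul_sum]
      refine sum_le_sum fun b hb => ?_
      rw [mem_compl] at hb
      have h2 := ih (J.erase a) (insert a S) (Function.update ρ a b) (insert (g b a) U) (by omega)
        (by rw [card_erase_of_mem ha, hJ]; rfl)
        (by
          rw [disjoint_insert_right]
          exact ⟨notMem_erase a J, disjoint_of_subset_left (erase_subset a J) hd⟩)
        (inj_update haS hb hρ)
      rw [card_insert_of_notMem haS] at h2
      have h3 : Fintype.card ι - (S.card + 1) = k := by omega
      rw [h3] at h2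
      refine le_trans (le_of_eq ?_) h2
      congr 1
      refine sum_congr rfl fun σ hσ => ?_
      have h4 : σ a = b := by
        have := (mem_filter.1 hσ).2 a (mem_insert_self a S)
        rwa [Function.update_self] at this
      rw [hΦ]
      dsimp only
      congr 1
      conv_lhs => rw [← insert_erase ha, image_insert, h4, union_insert, ← insert_union]
    have h2 : ((m + 1).factorial : ℝ) * ∑ σ ∈ F S ρ, Φ σ =
        ∑ a ∈ J, (m.factorial : ℝ) * ∑ σ ∈ F S ρ, Φ σ := by
      rw [sum_const, hJ, nsmul_eq_mul, Nat.factorial_succ]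
      push_cast
      ring
    rw [h2]
    calc ∑ a ∈ J, (m.factorial : ℝ) * ∑ σ ∈ F S ρ, Φ σ
        ≤ ∑ a ∈ J, ∑ b ∈ (S.image ρ)ᶜ, (k.factorial : ℝ) * (2 * M) ^ m *
            wt θ M (insert (g b a) U) := sum_le_sum h1
      _ ≤ ∑ a ∈ J, ∑ b ∈ (S.image ρ)ᶜ, (k.factorial : ℝ) * (2 * M) ^ m *
            (((if g b a ∈ U then 1 else 0) + θ) * wt θ M U) := by
          refine sum_le_sum fun a _ => sum_le_sum fun b _ => ?_
          exact mul_le_mul_of_nonneg_left (wt_insert hθ M U _) (by positivity)
      _ = (k.factorial : ℝ) * (2 * M) ^ m * ((∑ b ∈ (S.image ρ)ᶜ,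
            ((∑ a ∈ J, if g b a ∈ U then (1 : ℝ) else 0) + (m + 1) * θ)) * wt θ M U) := by
          rw [sum_comm, sum_mul, mul_sum]
          refine sum_congr rfl fun b _ => ?_
          rw [← mul_sum, ← sum_mul, sum_add_distrib, sum_const, hJ, nsmul_eq_mul]
          push_cast
          ring
      _ ≤ (k.factorial : ℝ) * (2 * M) ^ m * ((∑ b ∈ (S.image ρ)ᶜ, (2 * M : ℝ)) * wt θ M U) := by
          refine mul_le_mul_of_nonneg_left ?_ (by positivity)
          by_cases hU : U.card ≤ M
          · refine mul_le_mul_of_nonneg_right (sum_le_sum fun b _ => ?_) (wt_nonneg hθ M U)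
            have h3 : (∑ a ∈ J, if g b a ∈ U then (1 : ℝ) else 0) ≤ M := by
              rw [← sum_filter, sum_const, nsmul_eq_mul, mul_one]
              have h4 : (J.filter fun a => g b a ∈ U).card ≤ U.card :=
                card_le_card_of_injOn (g b) (fun a ha => (mem_filter.1 ha).2)
                  (fun x _ y _ h => hg b h)
              exact_mod_cast h4.trans hU
            have h5 : ((m : ℝ) + 1) * θ ≤ M := by
              refine le_trans ?_ hm₀
              rw [mul_comm]
              refine mul_le_mul_of_nonneg_left ?_ hθ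
              exact_mod_cast hm
            linarith
          · have : wt θ M U = 0 := by
              unfold wt
              rw [if_neg hU]
            rw [this, mul_zero, mul_zero]
      _ = ((Fintype.card ι - S.card).factorial : ℝ) * (2 * M) ^ (m + 1) * wt θ M U := by
          rw [sum_const, card_compl_image hρ, nsmul_eq_mul, hn, Nat.factorial_succ]
          push_cast
          ring

/-- **The count of the permutations for which few values occur on `J`.** -/
theorem count (g : ι → ι → V) (hg : ∀ b, Function.Injective (g b)) (J : Finset ι) (M : ℕ)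
    (hM : 1 ≤ M) (hMJ : M ≤ J.card) :
    (((univ.filter fun σ : Equiv.Perm ι => (J.image fun a => g (σ a) a).card ≤ M).card : ℕ) : ℝ) *
      (J.card.factorial : ℝ) ≤
      ((Fintype.card ι).factorial : ℝ) * (2 * M) ^ J.card * ((J.card : ℝ) / M) ^ M := by
  have hM0 : (0 : ℝ) < M := by exact_mod_cast hM
  have hJ0 : (0 : ℝ) < J.card := by exact_mod_cast (lt_of_lt_of_le hM hMJ)
  set θ : ℝ := M / J.card with hθ
  have hθ0 : 0 < θ := by positivity
  have hθ1 : θ ≤ 1 := by
    rw [hθ, div_le_one hJ0]
    exact_mod_cast hMJ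
  have h1 := main g hg hθ0.le M J.card (by rw [hθ, div_mul_cancel₀ _ hJ0.ne']) J.card J ∅ id ∅
    le_rfl rfl (disjoint_empty_right J) (by simp)
  have h2 : F (∅ : Finset ι) id = univ := by
    ext σ
    simp [F]
  have h3 : wt θ M (∅ : Finset V) = 1 := by simp [wt]
  rw [h2, h3, card_empty, Nat.sub_zero, mul_one] at h1
  simp only [empty_union] at h1
  have h4 : (((univ.filter fun σ : Equiv.Perm ι =>
      (J.image fun a => g (σ a) a).card ≤ M).card : ℕ) : ℝ) * θ ^ M ≤
      ∑ σ : Equiv.Perm ι, wt θ M (J.image fun a => g (σ a) a) := by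
    rw [card_filter]
    push_cast
    rw [sum_mul]
    refine sum_le_sum fun σ _ => ?_
    unfold wt
    split_ifs with h
    · rw [one_mul]
      exact pow_le_pow_of_le_one hθ0.le hθ1 h
    · rw [zero_mul]
  have h5 : θ ^ M * ((J.card : ℝ) / M) ^ M = 1 := by
    rw [← mul_pow, hθ]
    field_simp
    exact one_pow M
  have h6 := mul_le_mul_of_nonneg_left h4 (Nat.cast_nonneg (α := ℝ) J.card.factorial)
  have h7 := h6.trans h1
  calc (((univ.filter fun σ : Equiv.Perm ι =>
      (J.image fun a => g (σ a) a).card ≤ M).card : ℕ) : ℝ) * (J.card.factorial : ℝ)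
      = (J.card.factorial : ℝ) * ((((univ.filter fun σ : Equiv.Perm ι =>
      (J.image fun a => g (σ a) a).card ≤ M).card : ℕ) : ℝ) * θ ^ M) * ((J.card : ℝ) / M) ^ M := by
        rw [mul_assoc, mul_assoc, h5]
        ring
    _ ≤ ((Fintype.card ι).factorial : ℝ) * (2 * M) ^ J.card * ((J.card : ℝ) / M) ^ M :=
        mul_le_mul_of_nonneg_right h7 (by positivity)

end

end Pool.Agent.Q184.PM
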