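import Pool.Agent.Q184.PM.Main

set_option autoImplicit false
set_option linter.unusedSectionVars false

/-!
# Random matchings of arbitrary positions and distinct directions
-/

open Finset

namespace Pool.Agent.Q184.PM

variable {ι : Type} [Fintype ι] [DecidableEq ι]

/-- one set of indices: the squared probability -/
theorem sq_bound {V : Type} [DecidableEq V] (g : ι → ι → V) (hg : ∀ b, Function.Injective (g b))
    (J : Finset ι) (hJ : 1 ≤ J.card) {c : ℝ} (hc : 0 < c) (hc2 : c ≤ 1 / 2) :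
    ((((univ.filter fun σ : Equiv.Perm ι =>
      (((J.image fun a => g (σ a) a).card : ℕ) : ℝ) ≤ c * J.card).card : ℕ) : ℝ)) ^ 2 ≤
      ((Fintype.card ι).factorial : ℝ) ^ 2 * (4 * Real.exp 2 * c) ^ J.card := by
  set m := J.card with hm
  have hm0 : (0 : ℝ) < m := by exact_mod_cast hJ
  set M := ⌊c * (m : ℝ)⌋₊ with hM
  have e1 : (univ.filter fun σ : Equiv.Perm ι =>
      (((J.image fun a => g (σ a) a).card : ℕ) : ℝ) ≤ c * m) =
      univ.filter fun σ : Equiv.Perm ι => (J.image fun a => g (σ a) a).card ≤ M := by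
    refine filter_congr fun σ _ => ?_
    rw [hM, Nat.le_floor_iff (by positivity)]
  rw [e1]
  rcases Nat.eq_zero_or_pos M with hM0 | hM0
  · have e2 : (univ.filter fun σ : Equiv.Perm ι => (J.image fun a => g (σ a) a).card ≤ M) = ∅ := by
      rw [filter_eq_empty_iff]
      intro σ _
      rw [hM0, Nat.le_zero, card_eq_zero, image_eq_empty]
      intro h
      rw [h, card_empty] at hm
      omega
    rw [e2, card_empty, Nat.cast_zero, zero_pow two_ne_zero]
    positivity
  · have hMc : (M : ℝ) ≤ c * m := Nat.floor_le (by positivity)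
    have hMr : (0 : ℝ) < M := by exact_mod_cast hM0
    have hMm2 : (M : ℝ) ≤ m / 2 := by
      refine hMc.trans ?_
      nlinarith
    have hMm : M ≤ m := by
      have : (M : ℝ) ≤ m := by linarith
      exact_mod_cast this
    have h1 := count g hg J M hM0 hMm
    set B : ℝ := (((univ.filter fun σ : Equiv.Perm ι =>
      (J.image fun a => g (σ a) a).card ≤ M).card : ℕ) : ℝ) with hB
    have hB0 : 0 ≤ B := Nat.cast_nonneg _
    have h2 : (m : ℝ) ^ m / m.factorial ≤ Real.exp m := Real.pow_div_factorial_le_exp _ hm0.le m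
    have hf0 : (0 : ℝ) < m.factorial := by exact_mod_cast m.factorial_pos
    rw [← hm] at h1
    have h3 : B * (m : ℝ) ^ m ≤ ((Fintype.card ι).factorial : ℝ) * (2 * M) ^ m *
        ((m : ℝ) / M) ^ M * Real.exp m := by
      have h4 : (m : ℝ) ^ m ≤ m.factorial * Real.exp m := by
        rw [div_le_iff₀ hf0] at h2
        linarith
      calc B * (m : ℝ) ^ m ≤ B * (m.factorial * Real.exp m) := by gcongr
        _ = B * m.factorial * Real.exp m := by ring
        _ ≤ _ := by gcongr
    have h4 : ((m : ℝ) / M) ^ (2 * M) ≤ ((m : ℝ) / M) ^ m := by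
      refine pow_le_pow_right₀ ?_ ?_
      · rw [le_div_iff₀ hMr, one_mul]
        exact_mod_cast hMm
      · have : (2 * M : ℝ) ≤ m := by linarith
        exact_mod_cast this
    have h5 : (B * (m : ℝ) ^ m) ^ 2 ≤ ((Fintype.card ι).factorial : ℝ) ^ 2 *
        ((2 * M) ^ m * Real.exp m) ^ 2 * ((m : ℝ) / M) ^ m := by
      calc (B * (m : ℝ) ^ m) ^ 2 ≤ (((Fintype.card ι).factorial : ℝ) * (2 * M) ^ m *
            ((m : ℝ) / M) ^ M * Real.exp m) ^ 2 := by gcongr
        _ = ((Fintype.card ι).factorial : ℝ) ^ 2 * ((2 * M) ^ m * Real.exp m) ^ 2 *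
            ((m : ℝ) / M) ^ (2 * M) := by ring
        _ ≤ _ := by gcongr
    have hmm : (0 : ℝ) < (m : ℝ) ^ m := by positivity
    have h6 : B ^ 2 ≤ ((Fintype.card ι).factorial : ℝ) ^ 2 *
        (4 * Real.exp 2 * (M / m)) ^ m := by
      refine le_of_mul_le_mul_right ?_ (pow_pos hmm 2)
      rw [← mul_pow]
      refine h5.trans (le_of_eq ?_)
      have e3 : Real.exp m = Real.exp 1 ^ m := by
        rw [← Real.exp_nat_mul, mul_one]
      have e4 : Real.exp 2 = Real.exp 1 ^ 2 := by
        rw [← Real.exp_nat_mul]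
        norm_num
      rw [e3, e4, mul_assoc, mul_assoc]
      congr 1
      rw [← mul_pow, ← pow_mul, mul_comm m 2, pow_mul, ← mul_pow, ← pow_mul, mul_comm m 2, pow_mul,
        ← mul_pow]
      congr 1
      field_simp
      ring
    refine h6.trans ?_
    gcongr
    rw [div_le_iff₀ hm0]
    exact hMc

/-- one set of indices -/
theorem one_bound {V : Type} [DecidableEq V] (g : ι → ι → V) (hg : ∀ b, Function.Injective (g b))
    (J : Finset ι) (hJ : 1 ≤ J.card) {κ : ℝ} (hκ : 0 < κ) (hκ1 : κ ≤ 1) :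
    (((univ.filter fun σ : Equiv.Perm ι =>
      (((J.image fun a => g (σ a) a).card : ℕ) : ℝ) ≤ κ ^ 2 / (4 * Real.exp 2) * J.card).card : ℕ)
        : ℝ) ≤ ((Fintype.card ι).factorial : ℝ) * κ ^ J.card := by
  have he : 0 < Real.exp 2 := Real.exp_pos 2
  have he1 : 1 ≤ Real.exp 2 := Real.one_le_exp (by norm_num)
  have h1 := sq_bound g hg J hJ (c := κ ^ 2 / (4 * Real.exp 2)) (by positivity) (by
    rw [div_le_iff₀ (by positivity)]
    nlinarith)
  have e1 : 4 * Real.exp 2 * (κ ^ 2 / (4 * Real.exp 2)) = κ ^ 2 := by field_simp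
  rw [e1, ← pow_mul, mul_comm 2, pow_mul, ← mul_pow] at h1
  exact abs_le_of_sq_le_sq' h1 (by positivity) |>.2

/-- **Random matchings.** -/
theorem rand {γ : ℝ} (hγ : 0 < γ) (K : ℝ) (hK : 0 ≤ K) : ∃ c : ℝ, 0 < c ∧
    ∀ (ι : Type) [Fintype ι] [DecidableEq ι] (R W : Type) [Field R] [AddCommGroup W] [Module R W]
      [DecidableEq W] (p d : ι → W), Function.Injective d →
      (Nat.card {σ : Equiv.Perm ι // ¬ ∀ (t : R) (J : Finset ι), t ≠ 0 →
        γ * Fintype.card ι ≤ J.card →
        c * Fintype.card ι ≤ (J.image fun i => p (σ i) + t • d i).card} : ℝ) ≤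
      Real.exp (-(K * Fintype.card ι)) * Nat.card (Equiv.Perm ι) := by
  set κ : ℝ := Real.exp (-((K + 5) / γ)) with hκ
  have hκ0 : 0 < κ := Real.exp_pos _
  have hκ1 : κ ≤ 1 := by
    rw [hκ, Real.exp_le_one_iff, neg_nonpos]
    positivity
  set c₁ : ℝ := κ ^ 2 / (4 * Real.exp 2) with hc₁
  have hc₁0 : 0 < c₁ := by positivity
  have hc₁1 : c₁ ≤ 1 := by
    rw [hc₁, div_le_one (by positivity)]
    have he1 : 1 ≤ Real.exp 2 := Real.one_le_exp (by norm_num)
    nlinarith
  refine ⟨c₁ * γ / 2, by positivity, ?_⟩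
  intro ι _ _ R W _ _ _ _ p d hd
  classical
  set n := Fintype.card ι with hn
  rcases Nat.eq_zero_or_pos n with hn0 | hn0
  · have : IsEmpty {σ : Equiv.Perm ι // ¬ ∀ (t : R) (J : Finset ι), t ≠ 0 →
        γ * n ≤ J.card → c₁ * γ / 2 * n ≤ (J.image fun i => p (σ i) + t • d i).card} := by
      refine ⟨fun ⟨σ, h⟩ => h ?_⟩
      intro t J _ _
      rw [hn0]
      simp
    rw [Nat.card_of_isEmpty, Nat.cast_zero]
    positivity
  have hn1 : (1 : ℝ) ≤ n := by exact_mod_cast hn0
  -- the relevant heights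
  let P : (ι × ι) × (ι × ι) → R → Prop := fun q t =>
    d q.1.1 ≠ d q.1.2 ∧ p q.2.1 + t • d q.1.1 = p q.2.2 + t • d q.1.2
  let f : (ι × ι) × (ι × ι) → R := fun q => if h : ∃ t, P q t then h.choose else 0
  have hf : ∀ q t, P q t → f q = t := by
    intro q t h
    have h1 : ∃ t, P q t := ⟨t, h⟩
    have h2 : f q = h1.choose := dif_pos h1
    rw [h2]
    have h3 := h1.choose_spec
    set s := h1.choose
    have h4 : (s - t) • (d q.1.1 - d q.1.2) = 0 := by
      have e1 : s • d q.1.1 - s • d q.1.2 = p q.2.2 - p q.2.1 := by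
        rw [sub_eq_sub_iff_add_eq_add, add_comm (s • d q.1.1), h3.2]
        
      have e2 : t • d q.1.1 - t • d q.1.2 = p q.2.2 - p q.2.1 := by
        rw [sub_eq_sub_iff_add_eq_add, add_comm (t • d q.1.1), h.2]
      rw [smul_sub, sub_smul, sub_smul]
      have : s • d q.1.1 - t • d q.1.1 - (s • d q.1.2 - t • d q.1.2) =
          (s • d q.1.1 - s • d q.1.2) - (t • d q.1.1 - t • d q.1.2) := by abel
      rw [this, e1, e2, sub_self]
    rcases smul_eq_zero.1 h4 with h5 | h5
    · exact sub_eq_zero.1 h5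
    · exact absurd (sub_eq_zero.1 h5) h.1
  set Q : Finset R := (univ.image f).filter (· ≠ 0) with hQ
  have hQc : (Q.card : ℝ) ≤ (n : ℝ) ^ 4 := by
    have : Q.card ≤ Fintype.card ((ι × ι) × (ι × ι)) := by
      refine (card_filter_le _ _).trans ?_
      exact card_image_le
    rw [Fintype.card_prod, Fintype.card_prod, ← hn] at this
    calc (Q.card : ℝ) ≤ ((n * n * (n * n) : ℕ) : ℝ) := by exact_mod_cast this
      _ = (n : ℝ) ^ 4 := by push_cast; ring
  -- the bad sets
  set A : R × Finset ι → Finset (Equiv.Perm ι) := fun x => univ.filter fun σ : Equiv.Perm ι =>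
      (((x.2.image fun a => p (σ a) + x.1 • d a).card : ℕ) : ℝ) ≤ c₁ * x.2.card with hA
  set 𝒥 : Finset (Finset ι) := univ.filter fun J => γ * n ≤ J.card with h𝒥
  have hsub : ∀ σ : Equiv.Perm ι, (¬ ∀ (t : R) (J : Finset ι), t ≠ 0 →
        γ * n ≤ J.card → c₁ * γ / 2 * n ≤ (J.image fun i => p (σ i) + t • d i).card) →
        σ ∈ (Q ×ˢ 𝒥).biUnion A := by
    intro σ h
    push Not at h
    obtain ⟨t, J, ht, hJ, hlt⟩ := h
    have hJ0 : (0 : ℝ) < J.card := lt_of_lt_of_le (by positivity) hJ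
    have hle : (((J.image fun a => p (σ a) + t • d a).card : ℕ) : ℝ) ≤ c₁ * J.card := by
      refine hlt.le.trans ?_
      calc c₁ * γ / 2 * n = c₁ * (γ * n) / 2 := by ring
        _ ≤ c₁ * J.card / 2 := by gcongr
        _ ≤ c₁ * J.card := by linarith [mul_pos hc₁0 hJ0]
    have htQ : t ∈ Q := by
      by_contra hcon
      have hinj : Set.InjOn (fun a => p (σ a) + t • d a) J := by
        intro x _ y _ hxy
        by_contra hne
        have h1 : P ((x, y), (σ x, σ y)) t := ⟨fun h => hne (hd h), hxy⟩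
        refine hcon ?_
        rw [hQ, mem_filter, mem_image]
        exact ⟨⟨_, mem_univ _, hf _ _ h1⟩, ht⟩
      rw [card_image_of_injOn hinj] at hlt
      have h2 : c₁ * γ / 2 * n < γ * n := by
        have h3 : c₁ * γ / 2 * n ≤ 1 * γ / 2 * n := by gcongr
        have h4 : 0 < γ * n := by positivity
        linarith
      linarith
    rw [mem_biUnion]
    refine ⟨(t, J), mem_product.2 ⟨htQ, mem_filter.2 ⟨mem_univ _, hJ⟩⟩, ?_⟩
    exact mem_filter.2 ⟨mem_univ _, hle⟩
  have hcard : (Nat.card {σ : Equiv.Perm ι // ¬ ∀ (t : R) (J : Finset ι), t ≠ 0 →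
        γ * n ≤ J.card → c₁ * γ / 2 * n ≤ (J.image fun i => p (σ i) + t • d i).card} : ℝ) ≤
        (((Q ×ˢ 𝒥).biUnion A).card : ℕ) := by
    rw [Nat.card_eq_fintype_card, Fintype.card_subtype]
    exact_mod_cast card_le_card fun σ hσ => hsub σ (mem_filter.1 hσ).2
  refine hcard.trans ?_
  have hone : ∀ x ∈ Q ×ˢ 𝒥, ((A x).card : ℝ) ≤ (n.factorial : ℝ) * Real.exp (-((K + 5) * n)) := by
    rintro ⟨t, J⟩ hx
    obtain ⟨h1, h2⟩ := mem_product.1 hx
    have ht : t ≠ 0 := (mem_filter.1 h1).2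
    have hJ : γ * n ≤ J.card := (mem_filter.1 h2).2
    have hJ0 : (0 : ℝ) < J.card := lt_of_lt_of_le (by positivity) hJ
    have hg : ∀ b, Function.Injective (fun a => p b + t • d a) := by
      intro b x y h
      have h3 : t • d x = t • d y := add_left_cancel h
      exact hd (smul_right_injective W ht h3)
    have h3 := one_bound (fun b a => p b + t • d a) hg J (by exact_mod_cast hJ0) hκ0 hκ1
    refine h3.trans ?_
    refine mul_le_mul_of_nonneg_left ?_ (Nat.cast_nonneg _)
    rw [hκ, ← Real.exp_nat_mul]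
    apply Real.exp_le_exp.2
    have h4 : (K + 5) * n = (K + 5) / γ * (γ * n) := by field_simp
    rw [h4]
    have h5 : (K + 5) / γ * (γ * n) ≤ (K + 5) / γ * J.card :=
      mul_le_mul_of_nonneg_left hJ (by positivity)
    linarith
  have h2n : ((2 : ℝ)) ^ n ≤ Real.exp n := by
    have : (2 : ℝ) ≤ Real.exp 1 := by
      have := Real.add_one_le_exp (1 : ℝ)
      linarith
    calc (2 : ℝ) ^ n ≤ Real.exp 1 ^ n := by gcongr
      _ = Real.exp n := by rw [← Real.exp_nat_mul, mul_one]
  have hnn : (n : ℝ) ^ 4 ≤ Real.exp (4 * n) := by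
    have : (n : ℝ) ≤ Real.exp n := by
      have := Real.add_one_le_exp (n : ℝ)
      linarith
    calc (n : ℝ) ^ 4 ≤ Real.exp n ^ 4 := by gcongr
      _ = Real.exp (4 * n) := by rw [← Real.exp_nat_mul]; norm_num
  have h𝒥c : (𝒥.card : ℝ) ≤ 2 ^ n := by
    have : 𝒥.card ≤ 2 ^ n := by
      refine (card_filter_le _ _).trans ?_
      rw [card_univ, Fintype.card_finset, hn]
    exact_mod_cast this
  calc ((((Q ×ˢ 𝒥).biUnion A).card : ℕ) : ℝ) ≤ ∑ x ∈ Q ×ˢ 𝒥, ((A x).card : ℝ) := by
        exact_mod_cast card_biUnion_le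
    _ ≤ ∑ x ∈ Q ×ˢ 𝒥, (n.factorial : ℝ) * Real.exp (-((K + 5) * n)) := sum_le_sum hone
    _ = (Q.card : ℝ) * 𝒥.card * ((n.factorial : ℝ) * Real.exp (-((K + 5) * n))) := by
        rw [sum_const, card_product, nsmul_eq_mul]
        push_cast
        ring
    _ ≤ Real.exp (4 * n) * Real.exp n * ((n.factorial : ℝ) * Real.exp (-((K + 5) * n))) := by
        gcongr
        · exact hQc.trans hnn
        · exact h𝒥c.trans h2n
    _ = Real.exp (-(K * n)) * (n.factorial : ℝ) := by
        rw [← Real.exp_add]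
        have : Real.exp (4 * n + n) * ((n.factorial : ℝ) * Real.exp (-((K + 5) * n))) =
            (Real.exp (4 * n + n) * Real.exp (-((K + 5) * n))) * n.factorial := by ring
        rw [this, ← Real.exp_add]
        congr 2
        ring
    _ = _ := by
        rw [Nat.card_eq_fintype_card, Fintype.card_perm, hn]

end Pool.Agent.Q184.PM
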